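import Pool.Agent.SCS.Main

/-!
# Sparse sets complete for NP under threshold reductions

P = NP iff some sparse set in NP is complete for NP under truth-table reductions whose condition is a polynomial threshold of bounded degree with polynomially bounded weights.
-/

namespace Pool.Agent.Results.MP_36ce85_lc.ThresholdComplete

open Pool.Agent.SCS Pool.Agent.NegLim

theorem result : (∀ L : List Bool → Bool, InNP L → InP L) ↔
    ∃ B : List Bool → Bool, InNP B ∧ Sparse B ∧
      ∀ A : List Bool → Bool, InNP A → ThrReduces A B :=
  main_complete

end Pool.Agent.Results.MP_36ce85_lc.ThresholdComplete
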