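import Pool.Agent.ISO85.Main
import Pool.Agent.ISO85.Enum
import Pool.Agent.PCL85.Delta

/-!
# P-close sets hard for NP under threshold reductions

If a set `B` which differs from some set `D` in P only by a sparse set (in particular a sparse or a
co-sparse set `B`) is hard for NP under truth-table reductions whose condition is a polynomial
threshold of bounded degree with polynomially bounded weights, then (1) NP = RP, (2) every language
in FewP is in P, (3) for every `A` in NP a polynomial-time function lists, for any words
`x₁, …, xₘ`, candidates for the vector `(A x₁, …, A xₘ)`, the true one among them.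
-/

namespace Pool.Agent.Results.MP_36ce85_lc.ThresholdHardRP

open Pool.Agent.SCS Pool.Agent.NegLim Pool.Agent.ISO85 Turing

theorem result (B D : List Bool → Bool) (hD : InP D) (hB : Sparse (fun x => xor (B x) (D x)))
    (hred : ∀ A : List Bool → Bool, InNP A → ThrReduces A B) :
    (∀ L : List Bool → Bool, InNP L ↔ InRP L) ∧
    (∀ L : List Bool → Bool, InFewP L → InP L) ∧
    ∀ A : List Bool → Bool, InNP A → ∃ C : List (List Bool) → List (List Bool),
      Nonempty (TM2ComputableInPolyTime codeWords codeWords C) ∧
        ∀ xs : List (List Bool), xs.map A ∈ C xs := by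
  have hr : ∀ A : List Bool → Bool, InNP A → ThrReduces A (fun x => xor (B x) (D x)) :=
    fun A hA => PCL85.thrReduces_dif hD (hred A hA)
  exact ⟨main_rp _ (Or.inl hB) hr, fun _ hL => inP_of_few' (Or.inl hB) hr hL,
    enum_of_hard (Or.inl hB) hr⟩

end Pool.Agent.Results.MP_36ce85_lc.ThresholdHardRP
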