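import Pool.Agent.SCS.Main

/-!
# Sparse or co-sparse sets hard for UP under threshold reductions

If a sparse or co-sparse set is hard for UP under truth-table reductions whose condition is a polynomial threshold of bounded degree with polynomially bounded weights then P = UP.
-/

namespace Pool.Agent.Results.MP_36ce85_lc.ThresholdHardUP

open Pool.Agent.SCS

theorem result (B : List Bool → Bool) (hB : Sparse B ∨ Sparse (fun x => !B x))
    (hred : ∀ A : List Bool → Bool, InUP A → ThrReduces A B) :
    ∀ L : List Bool → Bool, InUP L → InP L :=
  main_hard B hB hred

end Pool.Agent.Results.MP_36ce85_lc.ThresholdHardUP
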